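import Pool.Agent.Helper77.HB.Final2

/-!
# The hierarchically hyperbolic boundary of a group depends on the structure

Question Q1 asks whether, for a non-hyperbolic hierarchically hyperbolic group `G`, the
Durham-Hagen-Sisto boundaries of any two hierarchically hyperbolic group structures on `G` are
homeomorphic.  The answer is no.

The example.  Let `P = F × ℤ`, where `F` is free on `a, c` and `ℤ` is generated by `b`, and let `G`
be the amalgamated product of `P` and `PSL(2, ℤ)` over the infinite cyclic group generated by
`c = (1 1; 0 1)`.  (In the formalisation `G` is a group of permutations of a set of words.)  Both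
structures have a root domain, whose space is the coned-off graph on `G / P` (a tree of Farey
graphs), and for each coset `g P` two orthogonal domains, whose spaces are the tree of `F` and a
line.  The coordinates of `(w, m) ∈ P` in the tree and in the line are `(w, m)` for the first
structure and `(w, m + #c(w))` for the second one, `#c(w)` the exponent sum of `c`; these are the two
product decompositions `⟨a, c⟩ × ⟨b⟩` and `⟨a, c b⁻¹⟩ × ⟨b⟩` of `P`.

In both cases the boundary is the disjoint union of the Gromov boundary of the root graph and of
one join `Σ = ∂F * {+∞, -∞}` for each coset.  Let `R` be the set of the points having arbitrarily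
small open neighbourhoods with finite frontier.  It turns out that `R` is the Gromov boundary of the
root graph and that the sets `Σ` are the path components of its complement (Sierpinski).  The two
ends of a coset `w ⟨c⟩` in `Σ` lie on the equator `∂F` for the first structure, and they become close
to each other (for `w = a ^ k`, `k → ∞`); for the second structure they lie at the heights `1/2` and
`-1/2`.  So for the first structure, but not for the second one, there is a point `z` of some `Σ` such
that each neighbourhood of `z` contains the frontier of a non-empty open set disjoint from `Σ`, with
frontier contained in `Σ`.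
-/

namespace Pool.Agent.Results.MP_40958c_al.BoundaryDependsOnStructure

open Pool.Agent.Helper77.HB

/-- There is a non-hyperbolic group `G` with two hierarchically hyperbolic group structures (on the
same Cayley graph) whose boundaries, with the topology of Durham, Hagen and Sisto, are not
homeomorphic.  The boundaries are not homeomorphic either if they carry the topologies induced by
any regular topologies on `G ∪ ∂G` for which the traces on `G` of the neighbourhoods of the boundary
points are those of Durham, Hagen and Sisto. -/
theorem result : ∃ (G : Type) (_ : Group G) (A : Set G), A.Finite ∧ Subgroup.closure A = ⊤ ∧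
    ¬ IsHypGroup G ∧ ∃ H₀ H₁ : HHG G A,
      IsEmpty (@Homeomorph (BPt H₀.toHHS) (BPt H₁.toHHS) (dhsTop H₀.toHHS 1)
        (dhsTop H₁.toHHS 1)) ∧
      ∀ (τ₀ : TopologicalSpace (G ⊕ BPt H₀.toHHS)) (τ₁ : TopologicalSpace (G ⊕ BPt H₁.toHHS)),
        IsBord H₀.toHHS 1 τ₀ → IsBord H₁.toHHS 1 τ₁ →
          IsEmpty (@Homeomorph (BPt H₀.toHHS) (BPt H₁.toHHS)
            (TopologicalSpace.induced Sum.inr τ₀) (TopologicalSpace.induced Sum.inr τ₁)) :=
  main

end Pool.Agent.Results.MP_40958c_al.BoundaryDependsOnStructure
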